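import Pool.Agent.helper31.T2X.Ren

/-!
# Renewal estimate (T2, step A4), main theorem
-/

namespace Pool.Agent.helper31.T2X

open Finset

theorem win_ok {c L s t n k : ℝ} (hc0 : 0 < 2 - c) (hc1 : 2 - c ≤ 1 / 2) (hL : 0 ≤ L)
    (hs0 : 0 < s) (hs1 : s ≤ 1 / 8) (hst : s ≤ t / 2) (hn0 : 0 ≤ n) (htn : 2 ≤ t * n)
    (h1 : (1 - s) * L ≤ n) (h2 : n ≤ (1 + s) * L) (h3 : (2 - c) * L + n * c ≤ k)
    (h4 : k < (2 - c) * L + n * c + 1) : |k - 2 * n| ≤ t * n := by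
  have hsL : 0 ≤ s * L := by positivity
  have h5 : |L - n| ≤ s * L := by
    rw [abs_le]
    constructor <;> linarith
  have h6 : L ≤ 2 * n := by
    have : s * L ≤ 1 / 8 * L := mul_le_mul_of_nonneg_right hs1 hL
    linarith
  have h7 : (2 - c) * |L - n| ≤ 1 / 2 * (s * L) := mul_le_mul hc1 h5 (abs_nonneg _) (by norm_num)
  have h8 : s * L ≤ s * (2 * n) := mul_le_mul_of_nonneg_left h6 hs0.le
  have h9 : s * n ≤ t / 2 * n := mul_le_mul_of_nonneg_right hst hn0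
  have h10 : |(2 - c) * (L - n)| ≤ s * n := by
    rw [abs_mul, abs_of_pos hc0]
    linarith
  obtain ⟨h11, h12⟩ := abs_le.1 h10
  have e : (2 - c) * (L - n) = (2 - c) * L + n * c - 2 * n := by ring
  rw [e] at h11 h12
  rw [abs_le]
  constructor <;> linarith

theorem up_ok {c L s M : ℝ} (hc0 : 0 < 2 - c) (hL : 0 ≤ L) (hs0 : 0 < s) (hM0 : 0 ≤ M)
    (h1 : M < (1 - s) * L + 1) (h2 : 2 * (1 + s) ≤ M * s) :
    (2 + (2 - c) * s / 4) * M ≤ (2 - c) * L + M * c := by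
  have h3 : (M - 1) * (1 + s) ≤ (1 - s) * L * (1 + s) :=
    mul_le_mul_of_nonneg_right (by linarith) (by linarith)
  have h4 : (1 - s) * L * (1 + s) ≤ L := by
    have : 0 ≤ s * s * L := by positivity
    linarith
  have h5 : M + M * s / 2 ≤ L := by linarith
  have h6 : (2 - c) * (M + M * s / 2) ≤ (2 - c) * L := mul_le_mul_of_nonneg_left h5 hc0.le
  have h7 : 0 ≤ (2 - c) * (M * s) := by positivity
  linarith

theorem lo_ok {c L s M : ℝ} (hc0 : 0 < 2 - c) (hs0 : 0 < s) (hs1 : s ≤ 1)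
    (hM0 : 0 ≤ M) (h1 : (1 + s) * L < M + 1) (h2 : 4 * (3 - c) ≤ M * ((2 - c) * s)) :
    (2 - c) * L + M * c + 1 ≤ (2 - (2 - c) * s / 4) * M := by
  have h3 : L ≤ (M + 1) * (1 - s / 2) := by
    have h4 : 1 ≤ (1 + s) * (1 - s / 2) := by nlinarith
    have h5 : (1 + s) * L ≤ (1 + s) * ((M + 1) * (1 - s / 2)) := by
      have : (M + 1) * 1 ≤ (M + 1) * ((1 + s) * (1 - s / 2)) :=
        mul_le_mul_of_nonneg_left h4 (by linarith)
      linarith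
    exact le_of_mul_le_mul_left h5 (by linarith)
  have h6 : (2 - c) * L ≤ (2 - c) * ((M + 1) * (1 - s / 2)) := mul_le_mul_of_nonneg_left h3 hc0.le
  have h7 : 0 ≤ (2 - c) * s := by positivity
  linarith

theorem fin_ok {c3 δ t U : ℝ} (hc : 0 < c3) (hδ : 0 < δ) (hδ1 : δ < 1) (ht : t ≤ δ * c3 / 6)
    (hU0 : 0 ≤ U) (hU : 1 - δ / 2 ≤ (c3 + 3 * t) * U) : (1 - δ) / c3 ≤ U := by
  rw [div_le_iff₀ hc]
  have h1 : (c3 + 3 * t) * U ≤ c3 * (1 + δ / 2) * U := by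
    apply mul_le_mul_of_nonneg_right _ hU0
    linarith
  have h2 : (1 - δ) * (1 + δ / 2) ≤ 1 - δ / 2 := by nlinarith
  have h3 : (1 - δ) * (1 + δ / 2) ≤ (U * c3) * (1 + δ / 2) := by linarith
  exact le_of_mul_le_mul_right h3 (by linarith)

theorem exp_ok {η δ X0 M : ℝ} (hη : 0 < η) (hδ : 0 < δ) (h1 : -Real.log δ / η ≤ X0)
    (hM : X0 ≤ M) : Real.exp (-(η * M)) ≤ δ := by
  rw [← Real.le_log_iff_exp_le hδ]
  have h2 : -Real.log δ / η ≤ M := h1.trans hM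
  rw [div_le_iff₀ hη] at h2
  linarith

theorem M_ok {L s X0 M0 M1 : ℝ} (hs0 : 0 < s) (hs1 : s ≤ 1 / 8) (hX0 : 1 ≤ X0)
    (hLX : 2 * X0 + 1 / s ≤ L) (h0l : (1 - s) * L ≤ M0) (h0u : M0 < (1 - s) * L + 1)
    (h1l : (1 + s) * L < M1 + 1) : X0 ≤ M0 ∧ M0 < M1 + 1 := by
  have h1 : s * (1 / s) = 1 := by field_simp
  have h2 : 0 < 1 / s := by positivity
  have h3 : 1 ≤ s * L := by
    have : s * (2 * X0 + 1 / s) ≤ s * L := mul_le_mul_of_nonneg_left hLX hs0.le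
    have h4 : 0 ≤ s * X0 := by positivity
    linarith
  have hL0 : 0 ≤ L := by linarith
  have h5 : s * L ≤ 1 / 8 * L := mul_le_mul_of_nonneg_right hs1 hL0
  constructor <;> linarith

/-- **Renewal estimate.** -/
theorem renewal {δ s : ℝ} (hδ : 0 < δ) (hs : 0 < s) : ∃ lam0 : ℝ, ∀ lam : ℝ, lam0 ≤ lam →
    ∀ N0 N1 : ℕ, (N0 : ℝ) ≤ (1 - s) * (lam / (2 - cc)) → (1 + s) * (lam / (2 - cc)) ≤ N1 →
      (1 - δ) / (2 - cc) ≤ ∑ n ∈ Ico N0 N1, P n (kap lam n) := by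
  have hc1 := cc_gt
  have hc2 := cc_lt
  have hc3 : 0 < 2 - cc := by linarith
  by_cases hδ1 : 1 ≤ δ
  · refine ⟨0, fun lam _ N0 N1 _ _ => ?_⟩
    refine le_trans ?_ (sum_nonneg fun n _ => P_nonneg _ _)
    exact div_nonpos_of_nonpos_of_nonneg (by linarith) hc3.le
  push Not at hδ1
  obtain ⟨t, ht0, ht1, ht2⟩ : ∃ t : ℝ, 0 < t ∧ t ≤ 1 / 4 ∧ t ≤ δ * (2 - cc) / 6 :=
    ⟨min (1 / 4) (δ * (2 - cc) / 6), lt_min (by norm_num) (by positivity), min_le_left _ _,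
      min_le_right _ _⟩
  obtain ⟨s1, hs10, hs11, hs12⟩ : ∃ s1 : ℝ, 0 < s1 ∧ s1 ≤ s ∧ s1 ≤ t / 2 :=
    ⟨min s (t / 2), lt_min hs (by positivity), min_le_left _ _, min_le_right _ _⟩
  have hs1q : s1 ≤ 1 / 8 := by linarith
  obtain ⟨s2, hs2⟩ : ∃ s2 : ℝ, s2 = (2 - cc) * s1 / 4 := ⟨_, rfl⟩
  have hs20 : 0 < s2 := by rw [hs2]; positivity
  have hs21 : s2 < 1 := by
    have : (2 - cc) * s1 ≤ 1 / 2 * (1 / 8) := mul_le_mul (by linarith) hs1q hs10.le (by norm_num)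
    rw [hs2]
    linarith
  obtain ⟨η1, hη1, hup⟩ := upper_exp hs20 hs21
  obtain ⟨η2, hη2, hlo⟩ := lower_exp hs20 hs21
  -- everything is fine above X0
  obtain ⟨X0, hX1, hX2, hX3, hX4, hX5, hX6⟩ : ∃ X0 : ℝ, 1 ≤ X0 ∧ 2 / t ≤ X0 ∧
      2 * (1 + s1) / s1 ≤ X0 ∧ 4 * (3 - cc) / ((2 - cc) * s1) ≤ X0 ∧
      -Real.log (δ / 6) / η1 ≤ X0 ∧ -Real.log (δ / 6) / η2 ≤ X0 := by
    refine ⟨max 1 (max (2 / t) (max (2 * (1 + s1) / s1) (max (4 * (3 - cc) / ((2 - cc) * s1))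
      (max (-Real.log (δ / 6) / η1) (-Real.log (δ / 6) / η2))))), ?_, ?_, ?_, ?_, ?_, ?_⟩ <;> simp
  refine ⟨(2 - cc) * (2 * X0 + 1 / s1), fun lam hlam N0 N1 hN0 hN1 => ?_⟩
  obtain ⟨L, hL⟩ : ∃ L : ℝ, L = lam / (2 - cc) := ⟨_, rfl⟩
  have hlamL : lam = (2 - cc) * L := by rw [hL]; field_simp
  have hLX : 2 * X0 + 1 / s1 ≤ L := by
    rw [hlamL] at hlam
    exact le_of_mul_le_mul_left hlam hc3
  have hs1inv : 0 < 1 / s1 := by positivity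
  have hL0 : 0 < L := by linarith
  have hlam0 : 0 ≤ lam := by rw [hlamL]; positivity
  rw [← hL] at hN0 hN1
  obtain ⟨M0, hM0⟩ : ∃ M0 : ℕ, M0 = ⌈(1 - s1) * L⌉₊ := ⟨_, rfl⟩
  obtain ⟨M1, hM1⟩ : ∃ M1 : ℕ, M1 = ⌊(1 + s1) * L⌋₊ := ⟨_, rfl⟩
  have hM0l : (1 - s1) * L ≤ M0 := by rw [hM0]; exact Nat.le_ceil _
  have hM0u : (M0 : ℝ) < (1 - s1) * L + 1 := by
    rw [hM0]
    exact Nat.ceil_lt_add_one (mul_nonneg (by linarith) hL0.le)
  have hM1u : (M1 : ℝ) ≤ (1 + s1) * L := by rw [hM1]; exact Nat.floor_le (by positivity)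
  have hM1l : (1 + s1) * L < M1 + 1 := by rw [hM1]; exact Nat.lt_floor_add_one _
  obtain ⟨hM0X, hM01'⟩ := M_ok hs10 hs1q hX1 hLX hM0l hM0u hM1l
  have hM01 : M0 ≤ M1 := by
    have h2 : M0 < M1 + 1 := by exact_mod_cast hM01'
    exact Nat.lt_succ_iff.1 h2
  have hM01r : (M0 : ℝ) ≤ M1 := by exact_mod_cast hM01
  have hsL : s1 * L ≤ s * L := mul_le_mul_of_nonneg_right hs11 hL0.le
  have hNM0 : N0 ≤ M0 := by
    have h1 : (N0 : ℝ) ≤ M0 := by linarith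
    exact_mod_cast h1
  have hMN1 : M1 ≤ N1 := by
    have h1 : (M1 : ℝ) ≤ N1 := by linarith
    exact_mod_cast h1
  have hsub : ∑ n ∈ Ico M0 M1, P n (kap lam n) ≤ ∑ n ∈ Ico N0 N1, P n (kap lam n) :=
    sum_le_sum_of_subset_of_nonneg (Ico_subset_Ico hNM0 hMN1) fun n _ _ => P_nonneg _ _
  have hM0one : 1 ≤ M0 := by
    have : (1 : ℝ) ≤ M0 := hX1.trans hM0X
    exact_mod_cast this
  have htM0 : 2 ≤ t * M0 := by
    have h1 : 2 / t ≤ M0 := hX2.trans hM0X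
    rw [div_le_iff₀ ht0] at h1
    linarith
  have hcore := core hlam0 ht0 ht1 hM01 hM0one htM0 (by
    intro n hn
    obtain ⟨h1, h2⟩ := mem_Ico.1 hn
    have h3 : (M0 : ℝ) ≤ n := by exact_mod_cast h1
    have h4 : (n : ℝ) ≤ M1 := by exact_mod_cast h2.le
    have h5 := kap_ge (lam := lam) n
    have h6 := kap_lt hlam0 n
    have h7 : 2 ≤ t * n := htM0.trans (mul_le_mul_of_nonneg_left h3 ht0.le)
    refine win_ok hc3 (by linarith) hL0.le hs10 hs1q hs12 (by positivity) h7 (hM0l.trans h3)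
      (h4.trans hM1u) ?_ ?_
    · rw [← hlamL]; exact h5
    · rw [← hlamL]; exact h6)
  -- the tails
  have hδ6 : 0 < δ / 6 := by positivity
  have hu : 1 - G M0 (kap lam M0) ≤ δ / 6 := by
    refine (hup M0 (kap lam M0) ?_).trans (exp_ok hη1 hδ6 hX5 hM0X)
    have h2 : 2 * (1 + s1) / s1 ≤ M0 := hX3.trans hM0X
    rw [div_le_iff₀ hs10] at h2
    refine le_trans ?_ (kap_ge (lam := lam) M0)
    rw [hs2]
    have h3 := up_ok (c := cc) hc3 hL0.le hs10 (by positivity) hM0u h2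
    rw [← hlamL] at h3
    exact h3
  have hd : G M1 (kap lam M1) ≤ δ / 6 := by
    have hM1X : X0 ≤ M1 := hM0X.trans hM01r
    refine (hlo M1 (kap lam M1) ?_).trans (exp_ok hη2 hδ6 hX6 hM1X)
    have h2 : 4 * (3 - cc) / ((2 - cc) * s1) ≤ M1 := hX4.trans hM1X
    rw [div_le_iff₀ (by positivity)] at h2
    refine le_trans (kap_lt hlam0 M1).le ?_
    rw [hs2]
    have h3 := lo_ok (c := cc) hc3 hs10 (by linarith) (by positivity) hM1l h2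
    rw [← hlamL] at h3
    exact h3
  have hp : P M0 (kap lam M0) ≤ δ / 6 := by
    have h1 := G_le_one M0 (kap lam M0 + 1)
    have h2 : P M0 (kap lam M0) = G M0 (kap lam M0 + 1) - G M0 (kap lam M0) := rfl
    linarith
  refine le_trans ?_ hsub
  have hU0 : 0 ≤ ∑ n ∈ Ico M0 M1, P n (kap lam n) := sum_nonneg fun n _ => P_nonneg _ _
  exact fin_ok hc3 hδ hδ1 ht2 hU0 (by linarith)

end Pool.Agent.helper31.T2X
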