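import Pool.Agent.helper31.T2X.Equi

/-!
# Renewal estimate for a window (N3)
-/

namespace Pool.Agent.helper31.T2X

open Finset

/-- one block: if `p` varies slowly and at least `W` of the `q` terms are selected -/
theorem block_one {p f : ℕ → ℝ} {a W : ℝ} {q m : ℕ} (hq : 0 < q) (hp : ∀ n, 0 ≤ p n)
    (hf0 : ∀ n, 0 ≤ f n)
    (ha : 0 ≤ a) (hd : ∀ n ∈ Ico m (m + q), |p (n + 1) - p n| ≤ a * p n)
    (hqa : 2 * (q * a) ≤ 1) (hW : W ≤ ∑ j ∈ range q, f (m + j)) (hW0 : 0 ≤ W) :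
    W / q * (1 - 2 * (q * a)) * ∑ n ∈ Ico m (m + q), p n ≤ ∑ n ∈ Ico m (m + q), f n * p n := by
  have hq' : (0 : ℝ) < q := by exact_mod_cast hq
  obtain ⟨S, hS⟩ : ∃ S, S = ∑ n ∈ Ico m (m + q), p n := ⟨_, rfl⟩
  have hS0 : 0 ≤ S := by rw [hS]; exact sum_nonneg fun n _ => hp n
  have hdev : ∀ j, j < q → |p (m + j) - p m| ≤ a * S := by
    intro j hj
    have h1 : p (m + j) - p m = ∑ n ∈ Ico m (m + j), (p (n + 1) - p n) := by
      rw [sum_Ico_sub _ (by omega)]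
    rw [h1]
    refine (abs_sum_le_sum_abs _ _).trans ?_
    have h2 : ∑ n ∈ Ico m (m + j), |p (n + 1) - p n| ≤ ∑ n ∈ Ico m (m + j), a * p n :=
      sum_le_sum fun n hn => hd n (mem_Ico.2 ⟨(mem_Ico.1 hn).1, by
        have := (mem_Ico.1 hn).2
        omega⟩)
    refine h2.trans ?_
    rw [← mul_sum, hS]
    apply mul_le_mul_of_nonneg_left _ ha
    exact sum_le_sum_of_subset_of_nonneg (Ico_subset_Ico le_rfl (by omega)) fun n _ _ => hp n
  have hSr : S = ∑ j ∈ range q, p (m + j) := by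
    rw [hS, sum_Ico_eq_sum_range, Nat.add_sub_cancel_left]
  have hfr : ∑ n ∈ Ico m (m + q), f n * p n = ∑ j ∈ range q, f (m + j) * p (m + j) := by
    rw [sum_Ico_eq_sum_range, Nat.add_sub_cancel_left]
  have h3 : S ≤ q * (p m + a * S) := by
    have h4 : ∑ j ∈ range q, p (m + j) ≤ ∑ j ∈ range q, (p m + a * S) :=
      sum_le_sum fun j hj => by
        have := (abs_le.1 (hdev j (mem_range.1 hj))).2
        linarith
    rw [← hSr, sum_const, card_range, nsmul_eq_mul] at h4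
    exact h4
  have h5 : S / q * (1 - 2 * (q * a)) ≤ p m - a * S := by
    rw [div_mul_eq_mul_div, div_le_iff₀ hq']
    linarith
  have h6 : 0 ≤ p m - a * S := by
    refine le_trans ?_ h5
    have : 0 ≤ 1 - 2 * (q * a) := by linarith
    positivity
  rw [← hS, hfr]
  have h7 : (p m - a * S) * ∑ j ∈ range q, f (m + j) ≤ ∑ j ∈ range q, f (m + j) * p (m + j) := by
    rw [mul_sum]
    refine sum_le_sum fun j hj => ?_
    rw [mul_comm]
    apply mul_le_mul_of_nonneg_left _ (hf0 _)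
    have := (abs_le.1 (hdev j (mem_range.1 hj))).1
    linarith
  refine le_trans ?_ h7
  calc W / q * (1 - 2 * (q * a)) * S = W * (S / q * (1 - 2 * (q * a))) := by ring
    _ ≤ W * (p m - a * S) := mul_le_mul_of_nonneg_left h5 hW0
    _ ≤ (∑ j ∈ range q, f (m + j)) * (p m - a * S) := mul_le_mul_of_nonneg_right hW h6
    _ = _ := by ring

/-- all the blocks -/
theorem block_all {p f : ℕ → ℝ} {a W : ℝ} {q m : ℕ} (hq : 0 < q) (hp : ∀ n, 0 ≤ p n)
    (hf0 : ∀ n, 0 ≤ f n) (ha : 0 ≤ a) (hqa : 2 * (q * a) ≤ 1)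
    (hW : ∀ n, W ≤ ∑ j ∈ range q, f (n + j)) (hW0 : 0 ≤ W) (B : ℕ)
    (hd : ∀ n ∈ Ico m (m + q * B), |p (n + 1) - p n| ≤ a * p n) :
    W / q * (1 - 2 * (q * a)) * ∑ n ∈ Ico m (m + q * B), p n ≤
      ∑ n ∈ Ico m (m + q * B), f n * p n := by
  induction B with
  | zero => simp
  | succ B ih =>
    have h1 : m + q * B ≤ m + q * (B + 1) := by rw [mul_add]; omega
    have e : m + q * (B + 1) = m + q * B + q := by ring
    rw [← sum_Ico_consecutive p (by omega : m ≤ m + q * B) h1,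
      ← sum_Ico_consecutive (fun n => f n * p n) (by omega : m ≤ m + q * B) h1, mul_add]
    refine add_le_add (ih fun n hn => hd n ?_) ?_
    · obtain ⟨h2, h3⟩ := mem_Ico.1 hn
      exact mem_Ico.2 ⟨h2, by omega⟩
    · rw [e]
      refine block_one hq hp hf0 ha (fun n hn => hd n ?_) hqa (hW _) hW0
      obtain ⟨h2, h3⟩ := mem_Ico.1 hn
      exact mem_Ico.2 ⟨by omega, by omega⟩

open Classical in
/-- the indicator of the window -/
noncomputable def win (w lam : ℝ) (n : ℕ) : ℝ :=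
  if (kap lam n : ℝ) - (lam + n * cc) < w then 1 else 0

theorem win_nonneg (w lam : ℝ) (n : ℕ) : 0 ≤ win w lam n := by
  unfold win
  split_ifs <;> norm_num

theorem kap_fract {lam : ℝ} (hl : 0 ≤ lam) (n : ℕ) :
    (kap lam n : ℝ) - (lam + n * cc) = Int.fract (-(lam + n * cc)) := by
  have hcc := cc_gt
  have h0 : 0 ≤ lam + n * cc := by positivity
  have h1 : (kap lam n : ℝ) = ((⌈lam + n * cc⌉ : ℤ) : ℝ) := by
    unfold kap
    rw [← Int.natCast_ceil_eq_ceil h0]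
    simp
  rw [h1, Int.fract, Int.floor_neg]
  push_cast
  ring

theorem win_count {q : ℕ} {p : ℤ} (hq : 0 < q) (hpq : IsCoprime p (q : ℤ))
    (hc : |cc - p / q| < 1 / (q : ℝ) ^ 2) {w lam : ℝ} (hw0 : 0 ≤ w) (hw1 : w ≤ 1)
    (hl : 0 ≤ lam) (m : ℕ) : w * q - 3 ≤ ∑ j ∈ range q, win w lam (m + j) := by
  classical
  have hc' : |-cc - ((-p : ℤ) : ℝ) / q| < 1 / (q : ℝ) ^ 2 := by
    have : -cc - ((-p : ℤ) : ℝ) / q = -(cc - p / q) := by
      push_cast
      ring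
    rw [this, abs_neg]
    exact hc
  refine (equi_count hq hpq.neg_left hc' (-(lam + m * cc)) hw0 hw1).trans (le_of_eq ?_)
  rw [card_filter]
  push_cast
  refine sum_congr rfl fun j _ => ?_
  unfold win
  rw [kap_fract hl]
  have h1 : -(lam + m * cc) + j * -cc = -(lam + ((m + j : ℕ) : ℝ) * cc) := by
    push_cast
    ring
  rw [h1]

theorem w_ok {w δ c3 : ℝ} {q a U V : ℝ} (hw0 : 0 < w) (hδ : 0 < δ) (hδ1 : δ < 1) (hc : 0 < c3)
    (hq : 12 / (w * δ) ≤ q) (hq0 : 0 < q) (hqa : 2 * (q * a) ≤ δ / 4)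
    (hU : (1 - δ / 4) / c3 ≤ U) (hV : (w * q - 3) / q * (1 - 2 * (q * a)) * U ≤ V) :
    (1 - δ) * (w / c3) ≤ V := by
  refine le_trans ?_ hV
  have h1 : w * (1 - δ / 4) ≤ (w * q - 3) / q := by
    rw [le_div_iff₀ hq0]
    rw [div_le_iff₀ (by positivity)] at hq
    linarith
  have h2 : (1 - δ / 4) ≤ 1 - 2 * (q * a) := by linarith
  have h0 : 0 < 1 - δ / 4 := by linarith
  have h3 : w * (1 - δ / 4) * (1 - δ / 4) ≤ (w * q - 3) / q * (1 - 2 * (q * a)) :=
    mul_le_mul h1 h2 h0.le (le_trans (by positivity) h1)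
  have h4 : w * (1 - δ / 4) * (1 - δ / 4) * ((1 - δ / 4) / c3) ≤
      (w * q - 3) / q * (1 - 2 * (q * a)) * U :=
    mul_le_mul h3 hU (by positivity) (le_trans (by positivity) h3)
  refine le_trans ?_ h4
  have h5 : w * (1 - δ / 4) * (1 - δ / 4) * ((1 - δ / 4) / c3) =
      (1 - δ / 4) ^ 3 * (w / c3) := by ring
  rw [h5]
  apply mul_le_mul_of_nonneg_right _ (by positivity)
  nlinarith [sq_nonneg δ, mul_pos hδ hδ]

/-- **Renewal estimate for a window.** -/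
theorem renewal_w {w δ s : ℝ} (hw0 : 0 < w) (hw1 : w ≤ 1) (hδ : 0 < δ) (hs : 0 < s) :
    ∃ lam0 : ℝ, ∀ lam : ℝ, lam0 ≤ lam →
    ∀ N0 N1 : ℕ, (N0 : ℝ) ≤ (1 - s) * (lam / (2 - cc)) → (1 + s) * (lam / (2 - cc)) ≤ N1 →
      (1 - δ) * (w / (2 - cc)) ≤ ∑ n ∈ Ico N0 N1, win w lam n * P n (kap lam n) := by
  have hc1 := cc_gt
  have hc2 := cc_lt
  have hc3 : 0 < 2 - cc := by linarith
  by_cases hδ1 : 1 ≤ δ
  · refine ⟨0, fun lam _ N0 N1 _ _ => ?_⟩
    refine le_trans ?_ (sum_nonneg fun n _ => mul_nonneg (win_nonneg _ _ _) (P_nonneg _ _))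
    exact mul_nonpos_of_nonpos_of_nonneg (by linarith) (by positivity)
  push Not at hδ1
  obtain ⟨p, q, hqQ, hq, hpq, hpq2⟩ := good_den cc cc_irr ⌈12 / (w * δ)⌉₊
  have hq' : (0 : ℝ) < q := by exact_mod_cast hq
  have hqQ' : 12 / (w * δ) ≤ q := by
    refine (Nat.le_ceil _).trans ?_
    exact_mod_cast hqQ
  have hW0 : 0 ≤ w * q - 3 := by
    have h1 := hqQ'
    rw [div_le_iff₀ (by positivity)] at h1
    have h2 : q * (w * δ) ≤ q * (w * 1) := by
      apply mul_le_mul_of_nonneg_left _ hq'.le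
      exact mul_le_mul_of_nonneg_left hδ1.le hw0.le
    linarith
  obtain ⟨t, ht0, ht1, ht2⟩ : ∃ t : ℝ, 0 < t ∧ t ≤ 1 / 4 ∧ t ≤ δ / (16 * q) :=
    ⟨min (1 / 4) (δ / (16 * q)), lt_min (by norm_num) (by positivity), min_le_left _ _,
      min_le_right _ _⟩
  have hqt : 2 * (q * (2 * t)) ≤ δ / 4 := by
    rw [le_div_iff₀ (by positivity)] at ht2
    linarith
  obtain ⟨s1, hs10, hs11, hs12⟩ : ∃ s1 : ℝ, 0 < s1 ∧ s1 ≤ s / 2 ∧ s1 ≤ t / 4 :=
    ⟨min (s / 2) (t / 4), lt_min (by positivity) (by positivity), min_le_left _ _,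
      min_le_right _ _⟩
  obtain ⟨lam1, hlam1⟩ := renewal (δ := δ / 4) (s := s1) (by positivity) hs10
  -- everything is fine above X0
  obtain ⟨X0, hX1, hX2, hX3, hX4⟩ : ∃ X0 : ℝ, 1 ≤ X0 ∧ lam1 / (2 - cc) ≤ X0 ∧
      2 / t * 2 ≤ X0 ∧ (q + 1) / s1 ≤ X0 := by
    refine ⟨max 1 (max (lam1 / (2 - cc)) (max (2 / t * 2) ((q + 1) / s1))), ?_, ?_, ?_, ?_⟩ <;> simp
  refine ⟨(2 - cc) * X0, fun lam hlam N0 N1 hN0 hN1 => ?_⟩
  obtain ⟨L, hL⟩ : ∃ L : ℝ, L = lam / (2 - cc) := ⟨_, rfl⟩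
  have hlamL : lam = (2 - cc) * L := by rw [hL]; field_simp
  have hLX : X0 ≤ L := by
    rw [hlamL] at hlam
    exact le_of_mul_le_mul_left hlam hc3
  have hL0 : 0 < L := by linarith
  have hlam0 : 0 ≤ lam := by rw [hlamL]; positivity
  have hlam1' : lam1 ≤ lam := by
    have h1 : lam1 / (2 - cc) ≤ L := hX2.trans hLX
    rw [div_le_iff₀ hc3] at h1
    linarith
  have hsq : q + 1 ≤ s1 * L := by
    have h1 : (q + 1) / s1 ≤ L := hX4.trans hLX
    rw [div_le_iff₀ hs10] at h1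
    linarith
  rw [← hL] at hN0 hN1
  obtain ⟨M0, hM0⟩ : ∃ M0 : ℕ, M0 = ⌊(1 - s1) * L⌋₊ := ⟨_, rfl⟩
  have hs1q : s1 ≤ 1 / 16 := by linarith
  have hM0u : (M0 : ℝ) ≤ (1 - s1) * L := by
    rw [hM0]
    exact Nat.floor_le (mul_nonneg (by linarith) hL0.le)
  have hM0l : (1 - s1) * L < M0 + 1 := by rw [hM0]; exact Nat.lt_floor_add_one _
  obtain ⟨B, hB⟩ : ∃ B : ℕ, B = ⌈((1 + s1) * L - M0) / q⌉₊ := ⟨_, rfl⟩
  have hsL0 : 0 < s1 * L := by positivity
  have hBn : 0 ≤ (1 + s1) * L - M0 := by linarith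
  have hBl : (1 + s1) * L ≤ M0 + q * B := by
    have h1 : ((1 + s1) * L - M0) / q ≤ B := by rw [hB]; exact Nat.le_ceil _
    rw [div_le_iff₀ hq'] at h1
    linarith
  have hBu : (M0 : ℝ) + q * B ≤ (1 + s1) * L + q := by
    have h1 : (B : ℝ) < ((1 + s1) * L - M0) / q + 1 := by
      rw [hB]
      exact Nat.ceil_lt_add_one (by positivity)
    have h2 : (q : ℝ) * B ≤ q * (((1 + s1) * L - M0) / q + 1) :=
      mul_le_mul_of_nonneg_left h1.le hq'.le
    have h3 : (q : ℝ) * (((1 + s1) * L - M0) / q + 1) = (1 + s1) * L - M0 + q := by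
      field_simp
    linarith
  have hsL : 2 * (s1 * L) ≤ s * L := by
    have := mul_le_mul_of_nonneg_right hs11 hL0.le
    linarith
  have hM0X : L ≤ 2 * M0 := by
    have : s1 * L ≤ 1 / 16 * L := mul_le_mul_of_nonneg_right hs1q hL0.le
    linarith
  have htM0 : 2 ≤ t * M0 := by
    have h1 : 2 / t * 2 ≤ 2 * M0 := (hX3.trans hLX).trans hM0X
    have h2 : 2 / t ≤ M0 := by linarith
    rw [div_le_iff₀ ht0] at h2
    linarith
  have hM0one : (1 : ℝ) ≤ M0 := by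
    nlinarith
  have hNM0 : N0 ≤ M0 := by
    have h1 : (N0 : ℝ) ≤ M0 := by linarith
    exact_mod_cast h1
  have hMN1 : M0 + q * B ≤ N1 := by
    have h1 : ((M0 + q * B : ℕ) : ℝ) ≤ N1 := by
      push_cast
      linarith
    exact_mod_cast h1
  have hren := hlam1 lam hlam1' M0 (M0 + q * B) (by rw [← hL]; exact hM0u)
    (by rw [← hL]; push_cast; exact hBl)
  have hblock := block_all (p := fun n => P n (kap lam n)) (f := win w lam) (a := 2 * t)
    (W := w * q - 3) (q := q) (m := M0) hq (fun n => P_nonneg _ _) (win_nonneg w lam)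
    (by positivity) (by linarith)
    (win_count hq hpq hpq2 hw0.le hw1 hlam0) hW0 B (by
      intro n hn
      obtain ⟨h1, h2⟩ := mem_Ico.1 hn
      have h3 : (M0 : ℝ) ≤ n := by exact_mod_cast h1
      have h4 : (n : ℝ) ≤ M0 + q * B := by
        have : n ≤ M0 + q * B := h2.le
        exact_mod_cast this
      have h5 := kap_ge (lam := lam) n
      have h6 := kap_lt hlam0 n
      have h7 : 2 ≤ t * n := htM0.trans (mul_le_mul_of_nonneg_left h3 ht0.le)
      have h8 : |(kap lam n : ℝ) - 2 * n| ≤ t * n := by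
        refine win_ok (s := 2 * s1) hc3 (by linarith) hL0.le (by positivity) (by linarith)
          (by linarith) (by positivity) h7 (by linarith) (by linarith) ?_ ?_
        · rw [← hlamL]; exact h5
        · rw [← hlamL]; exact h6
      have h9 : (1 : ℝ) ≤ n := hM0one.trans h3
      have h10 : 1 ≤ n := by exact_mod_cast h9
      have h11 : 1 ≤ kap lam n := by
        have h12 : (1 : ℝ) ≤ kap lam n := by nlinarith
        exact_mod_cast h12
      rcases kap_succ hlam0 n with h | h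
      · show |P (n + 1) (kap lam (n + 1)) - P n (kap lam n)| ≤ 2 * t * P n (kap lam n)
        rw [h]
        exact diff_one ht0 h10 h11 h8
      · show |P (n + 1) (kap lam (n + 1)) - P n (kap lam n)| ≤ 2 * t * P n (kap lam n)
        rw [h]
        exact diff_two ht0 ht1 h10 h7 h8)
  have hV := w_ok hw0 hδ hδ1 hc3 hqQ' hq' hqt hren hblock
  refine hV.trans ?_
  exact sum_le_sum_of_subset_of_nonneg (Ico_subset_Ico hNM0 hMN1) fun n _ _ =>
    mul_nonneg (win_nonneg _ _ _) (P_nonneg _ _)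

end Pool.Agent.helper31.T2X
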