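import Pool.Agent.helper31.T2X.Defs
import Pool.Agent.helper31.T2X.RenW

/-!
# Blackwell's theorem for the free walk and windows (N3)
-/

namespace Pool.Agent.helper31.T2X

open Finset Pool.Agent.helper14.EX1

/-- decomposition by the first letter -/
theorem BlackW_P (n S : ℕ) : P (n + 1) S = ∑ B ∈ Icc 1 S, (1 / 2 : ℝ) ^ B * P n (S - B) := by
  induction S with
  | zero => rw [P_zero]; simp
  | succ S ih =>
    rw [P_succ, ih, ← Finset.add_sum_Ioc_eq_sum_Icc (by omega : 1 ≤ S + 1)]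
    have h1 : Ioc 1 (S + 1) = (Icc 1 S).image (· + 1) := by
      ext x
      simp only [mem_Ioc, mem_image, mem_Icc]
      constructor
      · intro h
        exact ⟨x - 1, by omega, by omega⟩
      · rintro ⟨y, hy, rfl⟩
        omega
    rw [h1, sum_image (by intro x _ y _ h; simpa using h)]
    have h2 : ∀ B ∈ Icc 1 S, (1 / 2 : ℝ) ^ (B + 1) * P n (S + 1 - (B + 1)) =
        ((1 / 2 : ℝ) ^ B * P n (S - B)) / 2 := by
      intro B _
      have : S + 1 - (B + 1) = S - B := by omega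
      rw [this, pow_succ]
      ring
    rw [sum_congr rfl h2, ← sum_div]
    simp only [pow_one, Nat.add_sub_cancel]
    ring

open Classical in
/-- a lower bound for the expected number of visits -/
theorem BlackW_ev (b : ℝ) (K : ℕ) (X : ℝ) (r : ℕ) : ∀ l A : ℕ,
    ∑ n ∈ range (r + 1), ∑ S ∈ range (K + 1),
      P n S * (if Stw b X (l + n) (A + S) then 1 else 0) ≤ evw b K X r l A := by
  have h0 : ∀ l A : ℕ, ∑ S ∈ range (K + 1),
      P 0 S * (if Stw b X (l + 0) (A + S) then 1 else 0) = if Stw b X l A then (1 : ℝ) else 0 := by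
    intro l A
    rw [sum_range_succ', P_zero_zero, one_mul, add_zero, add_zero, sum_eq_zero, zero_add]
    intro S _
    rw [P_zero_succ, zero_mul]
  induction r with
  | zero =>
    intro l A
    rw [zero_add, sum_range_one, h0]
    simp [evw]
  | succ r ih =>
    intro l A
    rw [sum_range_succ', h0, evw, add_comm]
    refine add_le_add le_rfl ?_
    have h1 : ∀ B ∈ Icc 1 K, (1 / 2 : ℝ) ^ B * (∑ n ∈ range (r + 1), ∑ S ∈ range (K + 1),
        P n S * (if Stw b X (l + 1 + n) (A + B + S) then 1 else 0)) ≤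
        (1 / 2 : ℝ) ^ B * evw b K X r (l + 1) (A + B) := fun B _ =>
      mul_le_mul_of_nonneg_left (ih (l + 1) (A + B)) (by positivity)
    refine le_trans ?_ (sum_le_sum h1)
    have h2 : ∑ B ∈ Icc 1 K, (1 / 2 : ℝ) ^ B * (∑ n ∈ range (r + 1), ∑ S ∈ range (K + 1),
        P n S * (if Stw b X (l + 1 + n) (A + B + S) then (1 : ℝ) else 0)) =
        ∑ n ∈ range (r + 1), ∑ B ∈ Icc 1 K, ∑ S ∈ range (K + 1), (1 / 2 : ℝ) ^ B *
          (P n S * (if Stw b X (l + 1 + n) (A + B + S) then (1 : ℝ) else 0)) := by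
      rw [sum_comm]
      refine sum_congr rfl fun B _ => ?_
      rw [mul_sum]
      refine sum_congr rfl fun n _ => ?_
      rw [mul_sum]
    rw [h2]
    refine sum_le_sum fun n _ => ?_
    have h3 : ∀ S ∈ range (K + 1),
        P (n + 1) S * (if Stw b X (l + (n + 1)) (A + S) then (1 : ℝ) else 0)
        = ∑ B ∈ Icc 1 K, if B ≤ S then (1 / 2 : ℝ) ^ B *
          (P n (S - B) * (if Stw b X (l + 1 + n) (A + B + (S - B)) then (1 : ℝ) else 0)) else 0 := by
      intro S hS
      have hSK : S ≤ K := by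
        have := mem_range.1 hS
        omega
      rw [← sum_filter]
      have h4 : (Icc 1 K).filter (fun B => B ≤ S) = Icc 1 S := by
        ext B
        simp only [mem_filter, mem_Icc]
        omega
      rw [h4, BlackW_P, sum_mul]
      refine sum_congr rfl fun B hB => ?_
      have h5 := (mem_Icc.1 hB).2
      have h6 : A + B + (S - B) = A + S := by omega
      have h7 : l + 1 + n = l + (n + 1) := by omega
      rw [h6, h7]
      ring
    rw [sum_congr rfl h3, sum_comm]
    refine sum_le_sum fun B _ => ?_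
    rw [← sum_filter]
    have h8 : ((range (K + 1)).filter (fun S => B ≤ S)) ⊆ (range (K + 1)).image (fun S => B + S) := by
      intro S hS
      simp only [mem_filter, mem_range, mem_image] at hS ⊢
      exact ⟨S - B, by omega, by omega⟩
    have h9 : ∀ S : ℕ, 0 ≤ (1 / 2 : ℝ) ^ B *
        (P n (S - B) * (if Stw b X (l + 1 + n) (A + B + (S - B)) then (1 : ℝ) else 0)) := by
      intro S
      have := P_nonneg n (S - B)
      split_ifs <;> positivity
    refine (sum_le_sum_of_subset_of_nonneg h8 fun S _ _ => h9 S).trans (le_of_eq ?_)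
    rw [sum_image (by intro x _ y _ h; simpa using h)]
    refine sum_congr rfl fun S _ => ?_
    have : B + S - B = S := by omega
    rw [this]

theorem BlackW_const (b : ℝ) : Real.log b / Real.log (4 / 3) = Real.logb 2 b / (2 - cc) := by
  have h1 : Real.log (4 / 3) = 2 * Real.log 2 - Real.log 3 := by
    rw [Real.log_div (by norm_num) (by norm_num)]
    have : (4 : ℝ) = 2 ^ 2 := by norm_num
    rw [this, Real.log_pow]
    push_cast
    ring
  have h2 : cc = Real.log 3 / Real.log 2 := rfl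
  have h3 : Real.log 2 ≠ 0 := (Real.log_pos (by norm_num)).ne'
  have h4 : Real.log (4 / 3) ≠ 0 := (Real.log_pos (by norm_num)).ne'
  have h5 : 2 - cc = Real.log (4 / 3) / Real.log 2 := by
    rw [h1, h2]
    field_simp
  have h6 : Real.logb 2 b = Real.log b / Real.log 2 := rfl
  rw [h5, h6]
  field_simp

/-- the least sum is in the window -/
theorem BlackW_St {b X : ℝ} {l A n : ℕ} {R : ℝ} (hb : 1 < b) (hR : R = X * 3 ^ l / 2 ^ A)
    (hR1 : 1 ≤ R)
    (hw : (kap (Real.logb 2 R) n : ℝ) - (Real.logb 2 R + n * cc) < Real.logb 2 b) :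
    Stw b X (l + n) (A + kap (Real.logb 2 R) n) := by
  have hR0 : 0 < R := by linarith
  have hb0 : 0 < b := by linarith
  have h1 : X * 3 ^ l = R * 2 ^ A := by
    rw [hR]
    field_simp
  have h2 : R * 3 ^ n ≤ 2 ^ (kap (Real.logb 2 R) n) := (kap_le_iff hR0 n _).1 le_rfl
  have h3 : (2 : ℝ) ^ (kap (Real.logb 2 R) n) < b * (R * 3 ^ n) := by
    have h4 : (n : ℝ) * cc = Real.logb 2 (3 ^ n) := by
      rw [← Real.rpow_natCast 3 n, Real.logb_rpow_eq_mul_logb_of_pos (by norm_num)]
      rfl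
    have h5 : (kap (Real.logb 2 R) n : ℝ) < Real.logb 2 (b * (R * 3 ^ n)) := by
      rw [Real.logb_mul hb0.ne' (by positivity), Real.logb_mul hR0.ne' (by positivity), ← h4]
      linarith
    rw [Real.lt_logb_iff_rpow_lt (by norm_num) (by positivity), Real.rpow_natCast] at h5
    exact h5
  have hA : (0 : ℝ) < 2 ^ A := by positivity
  constructor
  · rw [pow_add, pow_add, ← mul_assoc, h1]
    nlinarith
  · have h6 : b * X * 3 ^ (l + n) = b * (X * 3 ^ l) * 3 ^ n := by rw [pow_add]; ring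
    rw [h6, h1, pow_add]
    nlinarith

/-- **Blackwell's theorem for the window `[X, b X)`**, `1 < b ≤ 2` -/
theorem evw_black {b d : ℝ} (hb : 1 < b) (hb2 : b ≤ 2) (hd : 0 < d) : ∃ R0 : ℝ, ∀ R1 : ℝ,
    ∃ N : ℕ, ∀ (X : ℝ) (l A K r : ℕ),
      R0 * 2 ^ A ≤ X * 3 ^ l → X * 3 ^ l ≤ R1 * 2 ^ A → N ≤ K → N ≤ r →
        (1 - d) * (Real.log b / Real.log (4 / 3)) ≤ evw b K X r l A := by
  classical
  have hc1 := cc_gt
  have hc2 := cc_lt
  have hc3 : 0 < 2 - cc := by linarith
  have hb0 : 0 < b := by linarith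
  obtain ⟨w, hw⟩ : ∃ w, w = Real.logb 2 b := ⟨_, rfl⟩
  have hw0 : 0 < w := by rw [hw]; exact Real.logb_pos (by norm_num) hb
  have hw1 : w ≤ 1 := by
    rw [hw, Real.logb_le_iff_le_rpow (by norm_num) hb0]
    simpa using hb2
  obtain ⟨lam0, h⟩ := renewal_w hw0 hw1 hd (s := 1) one_pos
  refine ⟨max 1 (2 ^ lam0), fun R1 => ?_⟩
  obtain ⟨lam1, hlam1⟩ : ∃ lam1, lam1 = Real.logb 2 R1 := ⟨_, rfl⟩
  obtain ⟨N1, hN1⟩ : ∃ N1 : ℕ, N1 = ⌈2 * (lam1 / (2 - cc))⌉₊ := ⟨_, rfl⟩
  refine ⟨N1 + ⌈lam1 + 2 * N1 + 1⌉₊, fun X l A K r hX0 hX1 hK hr => ?_⟩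
  obtain ⟨R, hR⟩ : ∃ R, R = X * 3 ^ l / 2 ^ A := ⟨_, rfl⟩
  have hA : (0 : ℝ) < 2 ^ A := by positivity
  have hRR0 : max 1 (2 ^ lam0) ≤ R := by rw [hR, le_div_iff₀ hA]; exact hX0
  have hRR1 : R ≤ R1 := by rw [hR, div_le_iff₀ hA]; exact hX1
  have hR1 : 1 ≤ R := (le_max_left _ _).trans hRR0
  have hR0 : 0 < R := by linarith
  obtain ⟨lam, hlam⟩ : ∃ lam, lam = Real.logb 2 R := ⟨_, rfl⟩
  have hlam0 : 0 ≤ lam := by rw [hlam]; exact Real.logb_nonneg (by norm_num) hR1
  have hle0 : lam0 ≤ lam := by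
    rw [hlam, Real.le_logb_iff_rpow_le (by norm_num) hR0]
    exact (le_max_right _ _).trans hRR0
  have hle1 : lam ≤ lam1 := by
    rw [hlam, hlam1]
    exact Real.logb_le_logb_of_le (by norm_num) hR0 hRR1
  have hren := h lam hle0 0 N1 (by simp) (by
    rw [hN1]
    refine le_trans ?_ (Nat.le_ceil _)
    have : lam / (2 - cc) ≤ lam1 / (2 - cc) := div_le_div_of_nonneg_right hle1 hc3.le
    linarith)
  have hkap : ∀ n, n < N1 → kap lam n ≤ K := by
    intro n hn
    have h1 := kap_lt hlam0 n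
    have h2 : (n : ℝ) ≤ N1 := by exact_mod_cast hn.le
    have h3 : (kap lam n : ℝ) ≤ ⌈lam1 + 2 * N1 + 1⌉₊ := by
      refine le_trans ?_ (Nat.le_ceil _)
      nlinarith
    have h4 : kap lam n ≤ ⌈lam1 + 2 * N1 + 1⌉₊ := by exact_mod_cast h3
    omega
  refine le_trans ?_ (BlackW_ev b K X r l A)
  rw [BlackW_const, ← hw]
  refine hren.trans ?_
  have hsub : Ico 0 N1 ⊆ range (r + 1) := by
    intro n hn
    have := (mem_Ico.1 hn).2
    rw [mem_range]
    omega
  have hnn : ∀ n, 0 ≤ ∑ S ∈ range (K + 1),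
      P n S * (if Stw b X (l + n) (A + S) then (1 : ℝ) else 0) := by
    intro n
    refine sum_nonneg fun S _ => ?_
    have := P_nonneg n S
    split_ifs <;> simp [this]
  refine le_trans (sum_le_sum fun n hn => ?_) (sum_le_sum_of_subset_of_nonneg hsub fun n _ _ => hnn n)
  have hn1 := (mem_Ico.1 hn).2
  unfold win
  split_ifs with hif
  · have h2 : 1 * P n (kap lam n) = P n (kap lam n) *
        (if Stw b X (l + n) (A + kap lam n) then (1 : ℝ) else 0) := by
      have h3 : Stw b X (l + n) (A + kap lam n) := by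
        rw [hlam] at hif ⊢
        rw [hw] at hif
        exact BlackW_St hb hR hR1 hif
      rw [if_pos h3, mul_one, one_mul]
    rw [h2]
    refine single_le_sum (f := fun S => P n S * (if Stw b X (l + n) (A + S) then (1 : ℝ) else 0))
      (fun S _ => ?_) (mem_range.2 ?_)
    · have := P_nonneg n S
      show 0 ≤ P n S * (if Stw b X (l + n) (A + S) then (1 : ℝ) else 0)
      split_ifs <;> simp [this]
    · have := hkap n hn1
      omega
  · rw [zero_mul]
    exact hnn n

end Pool.Agent.helper31.T2X
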