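import Pool.Agent.helper14.EX1.Defs

/-!
# The window `[X, b X)` and the expected number of visits of the free letter walk to it
-/

namespace Pool.Agent.helper31.T2X

open Finset Pool.Agent.helper14.EX1

/-- The state (number of letters `l`, sum `A`) is in the window: `2 ^ A / 3 ^ l ∈ [X, b X)`. -/
def Stw (b X : ℝ) (l A : ℕ) : Prop := X * 3 ^ l ≤ 2 ^ A ∧ (2 : ℝ) ^ A < b * X * 3 ^ l

open Classical in
/-- The expected number of visits to the window at the levels `l, …, l + r` of the letter walk from `(l, A)` (letters `≤ K`). -/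
noncomputable def evw (b : ℝ) (K : ℕ) (X : ℝ) : ℕ → ℕ → ℕ → ℝ
  | 0, l, A => if Stw b X l A then 1 else 0
  | r + 1, l, A => (if Stw b X l A then 1 else 0) + ∑ B ∈ Icc 1 K, (1 / 2 : ℝ) ^ B * evw b K X r (l + 1) (A + B)

end Pool.Agent.helper31.T2X
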