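import Pool.Agent.helper31.T2X.RenM

/-!
# Equidistribution of the multiples of `log 3 / log 2` (windows form, N2)
-/

namespace Pool.Agent.helper31.T2X

open Finset

/-- among `q` consecutive points of the orbit, at least `w q - 3` are in the window `[0, w)` -/
theorem equi_count {q : ℕ} {p : ℤ} (hq : 0 < q) (hpq : IsCoprime p (q : ℤ)) {c : ℝ}
    (hc : |c - p / q| < 1 / (q : ℝ) ^ 2) (x : ℝ) {w : ℝ} (hw0 : 0 ≤ w) (hw1 : w ≤ 1) :
    w * q - 3 ≤ (((range q).filter (fun j : ℕ => Int.fract (x + j * c) < w)).card : ℝ) := by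
  have hq' : (0 : ℝ) < q := by exact_mod_cast hq
  obtain ⟨u, v, huv⟩ := hpq
  obtain ⟨s, hs⟩ : ∃ s : ℤ, s = ⌊(q : ℝ) * x⌋ := ⟨_, rfl⟩
  have hs1 : (s : ℝ) ≤ q * x := by rw [hs]; exact Int.floor_le _
  have hs2 : (q : ℝ) * x < s + 1 := by rw [hs]; exact Int.lt_floor_add_one _
  obtain ⟨M, hM⟩ : ∃ M : ℕ, M = ⌊w * q⌋₊ - 2 := ⟨_, rfl⟩
  have hMl : w * q - 3 ≤ M := by
    have h1 : w * q < ⌊w * q⌋₊ + 1 := Nat.lt_floor_add_one _
    have h2 : ⌊w * q⌋₊ ≤ M + 2 := by omega
    have h3 : (⌊w * q⌋₊ : ℝ) ≤ M + 2 := by exact_mod_cast h2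
    linarith
  refine hMl.trans ?_
  have hMu : ∀ r ∈ Icc 1 M, (r : ℝ) + 2 ≤ w * q := by
    intro r hr
    obtain ⟨h1, h2⟩ := mem_Icc.1 hr
    have h3 : r + 2 ≤ ⌊w * q⌋₊ := by omega
    have h4 : ((r + 2 : ℕ) : ℝ) ≤ ⌊w * q⌋₊ := by exact_mod_cast h3
    have h5 : (⌊w * q⌋₊ : ℝ) ≤ w * q := Nat.floor_le (by positivity)
    push_cast at h4
    linarith
  have hMq : ∀ r ∈ Icc 1 M, r < q := by
    intro r hr
    have h1 := hMu r hr
    have h2 : w * q ≤ 1 * q := mul_le_mul_of_nonneg_right hw1 hq'.le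
    have h3 : (r : ℝ) < q := by linarith
    exact_mod_cast h3
  have hcard : M = (Icc 1 M).card := by simp
  rw [hcard]
  norm_cast
  have hqz : (0 : ℤ) < q := by exact_mod_cast hq
  refine card_le_card_of_injOn (fun r : ℕ => ((((r : ℤ) - s) * u) % (q : ℤ)).toNat) ?_ ?_
  · intro r hr
    have hr' : r ∈ Icc 1 M := hr
    obtain ⟨j, hj⟩ : ∃ j : ℕ, j = ((((r : ℤ) - s) * u) % (q : ℤ)).toNat := ⟨_, rfl⟩
    have hjz : (j : ℤ) = (((r : ℤ) - s) * u) % (q : ℤ) := by
      rw [hj, Int.toNat_of_nonneg (Int.emod_nonneg _ hqz.ne')]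
    have hjq : (j : ℤ) < q := by rw [hjz]; exact Int.emod_lt_of_pos _ hqz
    have hjq' : j < q := by exact_mod_cast hjq
    rw [coe_filter]
    show ((((r : ℤ) - s) * u) % (q : ℤ)).toNat ∈ range q ∧
      Int.fract (x + ((((((r : ℤ) - s) * u) % (q : ℤ)).toNat : ℕ) : ℝ) * c) < w
    rw [← hj]
    refine ⟨mem_range.2 hjq', ?_⟩
    -- `s + j p = r + q k`
    obtain ⟨k, hk⟩ : ∃ k : ℤ, s + j * p = r + q * k := by
      refine ⟨-(((r : ℤ) - s) * v) - p * ((((r : ℤ) - s) * u) / q), ?_⟩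
      have h1 := Int.emod_add_mul_ediv (((r : ℤ) - s) * u) q
      rw [← hjz] at h1
      have h2 : ((r : ℤ) - s) * (u * p + v * q) = (r - s) := by rw [huv, mul_one]
      linear_combination p * h1 + h2
    have hkr : (s : ℝ) + j * p = r + q * k := by exact_mod_cast hk
    obtain ⟨e, he⟩ : ∃ e : ℝ, e = c - p / q := ⟨_, rfl⟩
    rw [← he] at hc
    have hce : c = p / q + e := by rw [he]; ring
    have hje : |(q : ℝ) * (j * e)| < 1 := by
      have h1 : |(q : ℝ) * (j * e)| = q * (j * |e|) := by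
        rw [abs_mul, abs_mul, abs_of_pos hq', abs_of_nonneg (by positivity : (0 : ℝ) ≤ j)]
      rw [h1]
      have h2 : (j : ℝ) ≤ q := by exact_mod_cast hjq'.le
      have h3 : (j : ℝ) * |e| ≤ q * |e| := mul_le_mul_of_nonneg_right h2 (abs_nonneg _)
      have h4 : (q : ℝ) * (q * |e|) < q * (q * (1 / (q : ℝ) ^ 2)) := by
        apply mul_lt_mul_of_pos_left _ hq'
        exact mul_lt_mul_of_pos_left hc hq'
      have h5 : (q : ℝ) * (q * (1 / (q : ℝ) ^ 2)) = 1 := by field_simp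
      have h6 : (q : ℝ) * (j * |e|) ≤ q * (q * |e|) := mul_le_mul_of_nonneg_left h3 hq'.le
      linarith
    obtain ⟨h7, h8⟩ := abs_lt.1 hje
    have hr1 : (1 : ℝ) ≤ r := by exact_mod_cast (mem_Icc.1 hr').1
    have hr2 := hMu r hr'
    have hwq : w * q ≤ q := by
      have := mul_le_mul_of_nonneg_right hw1 hq'.le
      linarith
    -- the fractional part
    have h9 : x + j * c = k + (q * x - s + r + q * (j * e)) / q := by
      rw [hce]
      field_simp
      linear_combination hkr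
    have h10 : Int.fract (x + j * c) = (q * x - s + r + q * (j * e)) / q := by
      rw [h9, Int.fract_intCast_add, Int.fract_eq_self]
      constructor
      · apply div_nonneg _ hq'.le
        linarith
      · rw [div_lt_one hq']
        linarith
    rw [h10, div_lt_iff₀ hq']
    linarith
  · intro r hr r' hr' h
    have hr1 : r ∈ Icc 1 M := hr
    have hr1' : r' ∈ Icc 1 M := hr'
    have h1 : (((r : ℤ) - s) * u) % (q : ℤ) = (((r' : ℤ) - s) * u) % (q : ℤ) := by
      have h2 := congrArg (fun n : ℕ => (n : ℤ)) h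
      simp only at h2
      rwa [Int.toNat_of_nonneg (Int.emod_nonneg _ hqz.ne'),
        Int.toNat_of_nonneg (Int.emod_nonneg _ hqz.ne')] at h2
    have h2 : (q : ℤ) ∣ (((r : ℤ) - s) * u) - (((r' : ℤ) - s) * u) :=
      Int.ModEq.dvd (show (((r' : ℤ) - s) * u) ≡ (((r : ℤ) - s) * u) [ZMOD q] from h1.symm)
    have h3 : (q : ℤ) ∣ (r : ℤ) - r' := by
      obtain ⟨y, hy⟩ := h2
      refine ⟨y * p + ((r : ℤ) - r') * v, ?_⟩
      have h4 : ((r : ℤ) - r') * (u * p + v * q) = (r - r') := by rw [huv, mul_one]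
      linear_combination -h4 + p * hy
    have hrq := hMq r hr1
    have hrq' := hMq r' hr1'
    have h5 : (r : ℤ) - r' = 0 := by
      apply Int.eq_zero_of_abs_lt_dvd h3
      rw [abs_lt]
      constructor <;> omega
    omega

theorem cc_irr : Irrational cc := by
  rintro ⟨r, hr⟩
  have hcc := cc_gt
  have hden : (0 : ℝ) < r.den := by exact_mod_cast r.den_pos
  have h1 : (r : ℝ) * r.den = r.num := by
    have := Rat.mul_den_eq_num r
    exact_mod_cast this
  have hnum : 0 ≤ r.num := by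
    have : (0 : ℝ) ≤ r.num := by
      rw [← h1, hr]
      positivity
    exact_mod_cast this
  obtain ⟨m, hm⟩ := Int.eq_ofNat_of_zero_le hnum
  have h2 : (3 : ℝ) ^ r.den = 2 ^ m := by
    have h3 : (2 : ℝ) ^ cc = 3 := Real.rpow_logb (by norm_num) (by norm_num) (by norm_num)
    have h4 : (2 : ℝ) ^ (cc * r.den) = (2 : ℝ) ^ ((m : ℕ) : ℝ) := by
      rw [← hr, h1, hm]
      simp
    rw [Real.rpow_mul (by norm_num), h3, Real.rpow_natCast, Real.rpow_natCast] at h4
    exact h4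
  have h3 : 3 ^ r.den = 2 ^ m := by exact_mod_cast h2
  have h4 : 3 ∣ 2 ^ m := by
    rw [← h3]
    exact dvd_pow_self 3 r.den_nz
  have h5 : 3 ∣ 2 := Nat.Prime.dvd_of_dvd_pow Nat.prime_three h4
  omega

/-- good denominators -/
theorem good_den (ξ : ℝ) (hξ : Irrational ξ) (Q : ℕ) : ∃ (p : ℤ) (q : ℕ), Q ≤ q ∧ 0 < q ∧
    IsCoprime p (q : ℤ) ∧ |ξ - p / q| < 1 / (q : ℝ) ^ 2 := by
  by_contra hcon
  push Not at hcon
  apply Real.infinite_rat_abs_sub_lt_one_div_den_sq_of_irrational hξ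
  obtain ⟨T, hT⟩ : ∃ T : ℤ, T = ⌈(|ξ| + 1) * Q⌉ := ⟨_, rfl⟩
  have hfin : (((Icc (-T) T) ×ˢ (range Q) : Finset (ℤ × ℕ)) : Set (ℤ × ℕ)).Finite :=
    Finset.finite_toSet _
  refine Set.Finite.of_finite_image (f := fun r : ℚ => (r.num, r.den)) (hfin.subset ?_) ?_
  · rintro _ ⟨r, hr, rfl⟩
    have hr' : |ξ - r| < 1 / (r.den : ℝ) ^ 2 := hr
    have hden : (1 : ℝ) ≤ r.den := by exact_mod_cast r.den_pos
    have hrr : (r : ℝ) = (r.num : ℝ) / r.den := by
      have := Rat.num_div_den r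
      exact_mod_cast this.symm
    have hdQ : r.den < Q := by
      by_contra h
      push Not at h
      have h1 := hcon r.num r.den h r.den_pos
        (Int.isCoprime_iff_gcd_eq_one.2 (by
          have := r.reduced
          rwa [Nat.coprime_iff_gcd_eq_one] at this))
      rw [← hrr] at h1
      linarith
    have hdQ' : (r.den : ℝ) ≤ Q := by exact_mod_cast hdQ.le
    have h1 : |ξ - r| < 1 := by
      refine hr'.trans_le ?_
      rw [div_le_one (by positivity)]
      nlinarith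
    have h2 : |(r : ℝ)| ≤ |ξ| + 1 := by
      have h3 : |(r : ℝ)| ≤ |ξ| + |ξ - r| := by
        have h4 : (r : ℝ) = ξ - (ξ - r) := by ring
        calc |(r : ℝ)| = |ξ - (ξ - r)| := by rw [← h4]
          _ ≤ |ξ| + |ξ - r| := abs_sub _ _
      linarith
    have h3 : |(r.num : ℝ)| ≤ (|ξ| + 1) * Q := by
      have h4 : (r.num : ℝ) = r * r.den := by rw [hrr]; field_simp
      rw [h4, abs_mul, abs_of_nonneg (by positivity : (0 : ℝ) ≤ r.den)]
      exact mul_le_mul h2 hdQ' (by positivity) (by positivity)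
    have h4 : |(r.num : ℝ)| ≤ T := by
      rw [hT]
      exact h3.trans (Int.le_ceil _)
    have h5 : |r.num| ≤ T := by exact_mod_cast h4
    rw [abs_le] at h5
    simp only [coe_product, Set.mem_prod, mem_coe, mem_Icc, mem_range]
    exact ⟨h5, hdQ⟩
  · intro r _ r' _ h
    simp only [Prod.mk.injEq] at h
    exact Rat.ext h.1 h.2

end Pool.Agent.helper31.T2X
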