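import Mathlib

/-!
# Renewal estimate for sums of geometric letters (T2, step A4)

`G n K` is the probability that the sum of `n` independent letters (`P(k) = 2⁻ᵏ`, `k ≥ 1`) is smaller
than `K`, `P n K` the probability that the sum is `K`.
-/

namespace Pool.Agent.helper31.T2X

open Finset

/-- the distribution function -/
noncomputable def G : ℕ → ℕ → ℝ
  | _, 0 => 0
  | 0, _ + 1 => 1
  | n + 1, K + 1 => (G n K + G (n + 1) K) / 2

/-- the probability of the value `K` -/
noncomputable def P (n K : ℕ) : ℝ := G n (K + 1) - G n K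

theorem G_zero (n : ℕ) : G n 0 = 0 := by cases n <;> simp [G]

theorem G_zero_succ (K : ℕ) : G 0 (K + 1) = 1 := by simp [G]

theorem G_succ (n K : ℕ) : G (n + 1) (K + 1) = (G n K + G (n + 1) K) / 2 := by simp [G]

theorem P_succ (n K : ℕ) : P (n + 1) (K + 1) = (P n K + P (n + 1) K) / 2 := by
  unfold P
  rw [G_succ n (K + 1), G_succ n K]
  ring

theorem P_zero (n : ℕ) : P (n + 1) 0 = 0 := by
  unfold P
  rw [zero_add, G_succ, G_zero, G_zero]
  norm_num

theorem P_zero_zero : P 0 0 = 1 := by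
  unfold P
  rw [G_zero_succ, G_zero, sub_zero]

theorem P_zero_succ (K : ℕ) : P 0 (K + 1) = 0 := by
  unfold P
  rw [G_zero_succ, G_zero_succ, sub_self]

/-- closed form -/
theorem P_eq_succ (n K : ℕ) : P (n + 1) (K + 1) = (K.choose n : ℝ) / 2 ^ (K + 1) := by
  induction K generalizing n with
  | zero =>
    rw [P_succ, P_zero, add_zero]
    cases n with
    | zero => rw [P_zero_zero]; norm_num
    | succ n => rw [P_zero]; simp
  | succ K ih =>
    rw [P_succ, ih]
    cases n with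
    | zero =>
      rw [P_zero_succ]
      simp only [Nat.choose_zero_right]
      rw [pow_succ (2 : ℝ) (K + 1)]
      field_simp
      norm_num
    | succ n =>
      rw [ih, Nat.choose_succ_succ K n]
      push_cast
      rw [pow_succ (2 : ℝ) (K + 1)]
      field_simp

theorem P_eq {n K : ℕ} (hn : 1 ≤ n) (hK : 1 ≤ K) :
    P n K = ((K - 1).choose (n - 1) : ℝ) / 2 ^ K := by
  obtain ⟨n, rfl⟩ := Nat.exists_eq_add_of_le' hn
  obtain ⟨K, rfl⟩ := Nat.exists_eq_add_of_le' hK
  rw [P_eq_succ]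
  simp

theorem P_nonneg (n K : ℕ) : 0 ≤ P n K := by
  cases n with
  | zero =>
    cases K with
    | zero => rw [P_zero_zero]; norm_num
    | succ K => rw [P_zero_succ]
  | succ n =>
    cases K with
    | zero => rw [P_zero]
    | succ K => rw [P_eq_succ]; positivity

theorem G_le_one (n K : ℕ) : G n K ≤ 1 := by
  induction K generalizing n with
  | zero => rw [G_zero]; norm_num
  | succ K ih =>
    cases n with
    | zero => rw [G_zero_succ]
    | succ n =>
      rw [G_succ]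
      linarith [ih n, ih (n + 1)]

theorem G_nonneg (n K : ℕ) : 0 ≤ G n K := by
  induction K generalizing n with
  | zero => rw [G_zero]
  | succ K ih =>
    cases n with
    | zero => rw [G_zero_succ]; norm_num
    | succ n =>
      rw [G_succ]
      linarith [ih n, ih (n + 1)]

/-- the distribution function as a sum -/
theorem G_eq_sum (n K : ℕ) : G n K = ∑ A ∈ range K, P n A := by
  induction K with
  | zero => rw [G_zero]; simp
  | succ K ih => rw [sum_range_succ, ← ih]; unfold P; ring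

/-- flux -/
theorem flux_one (n K : ℕ) : G n K - G (n + 1) (K + 1) = P (n + 1) K := by
  unfold P
  rw [G_succ]
  ring

theorem flux_two (n K : ℕ) : G n K - G (n + 1) (K + 2) = (P (n + 1) K - P n K) / 2 := by
  have h1 := flux_one n K
  have h2 : G (n + 1) (K + 2) - G (n + 1) (K + 1) = P (n + 1) (K + 1) := rfl
  have h3 := P_succ n K
  linarith

/-- ratio in the number of letters -/
theorem ratio_n {n K : ℕ} (hn : 1 ≤ n) (hK : 1 ≤ K) :
    (n : ℝ) * P (n + 1) K = ((K : ℝ) - n) * P n K := by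
  obtain ⟨n, rfl⟩ := Nat.exists_eq_add_of_le' hn
  obtain ⟨K, rfl⟩ := Nat.exists_eq_add_of_le' hK
  rw [P_eq_succ, P_eq_succ]
  have h : (K.choose (n + 1) : ℝ) * ((n : ℝ) + 1) = (K.choose n : ℝ) * ((K : ℝ) - n) := by
    rcases le_or_gt n K with h | h
    · have := Nat.choose_succ_right_eq K n
      have h2 : ((K.choose (n + 1) * (n + 1) : ℕ) : ℝ) = ((K.choose n * (K - n) : ℕ) : ℝ) := by
        rw [this]
      push_cast [Nat.cast_sub h] at h2
      exact h2
    · rw [Nat.choose_eq_zero_of_lt h, Nat.choose_eq_zero_of_lt (by omega)]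
      simp
  push_cast
  field_simp
  have h2 : (K : ℝ) + 1 - (n + 1) = K - n := by ring
  rw [h2]
  linarith

/-- one letter, the sum grows by `1` -/
theorem next_one {n K : ℕ} (hn : 1 ≤ n) (hK : 1 ≤ K) :
    P (n + 1) (K + 1) = P n K * (K / (2 * n)) := by
  have h1 := ratio_n hn hK
  have hn' : (0 : ℝ) < n := by exact_mod_cast hn
  have h2 : P (n + 1) K = ((K : ℝ) - n) * P n K / n := by
    rw [eq_div_iff hn'.ne']
    linarith
  rw [P_succ, h2]
  field_simp
  ring

/-- ratio in the sum -/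
theorem ratio_K {n K : ℕ} (hn : 1 ≤ n) (hK : n ≤ K) :
    P n (K + 1) = P n K * (K / (2 * ((K : ℝ) - n + 1))) := by
  obtain ⟨n, rfl⟩ := Nat.exists_eq_add_of_le' hn
  obtain ⟨K, rfl⟩ := Nat.exists_eq_add_of_le' (hn.trans hK)
  have h1 : n ≤ K := by omega
  rw [P_eq_succ, P_eq_succ]
  have h : ((K + 1).choose n : ℝ) * ((K : ℝ) + 1 - n) = (K.choose n : ℝ) * (K + 1) := by
    have h2 := Nat.choose_mul_succ_eq K n
    have h3 : ((K.choose n * (K + 1) : ℕ) : ℝ) = (((K + 1).choose n * (K + 1 - n) : ℕ) : ℝ) := by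
      rw [h2]
    push_cast [Nat.cast_sub (by omega : n ≤ K + 1)] at h3
    linarith
  have h4 : (K : ℝ) + 1 - n ≠ 0 := by
    have : (n : ℝ) ≤ K := by exact_mod_cast h1
    linarith
  have h5 : ((K + 1).choose n : ℝ) = (K.choose n : ℝ) * (K + 1) / ((K : ℝ) + 1 - n) := by
    rw [eq_div_iff h4]
    exact h
  rw [h5]
  push_cast
  have h6 : (K : ℝ) + 1 - (n + 1) + 1 = K + 1 - n := by ring
  rw [h6, pow_succ (2 : ℝ) (K + 1)]
  field_simp

/-- one letter, the sum grows by `2` -/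
theorem next_two {n K : ℕ} (hn : 1 ≤ n) (hK : n ≤ K) :
    P (n + 1) (K + 2) = P n K * (K / (2 * n)) * (((K : ℝ) + 1) / (2 * ((K : ℝ) - n + 1))) := by
  have h1 := ratio_K (n := n + 1) (K := K + 1) (by omega) (by omega)
  have h2 := next_one hn (hn.trans hK)
  have h3 : P (n + 1) (K + 2) = P (n + 1) (K + 1 + 1) := rfl
  rw [h3, h1, h2]
  push_cast
  have : (K : ℝ) + 1 - (n + 1) + 1 = K - n + 1 := by ring
  rw [this]

/-! ## tails -/

/-- upper tail -/
theorem upper {z : ℝ} (h1 : 1 ≤ z) (h2 : z < 2) (n K : ℕ) :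
    1 - G n K ≤ (z / (2 - z)) ^ n / z ^ K := by
  have hz : 0 < z := by linarith
  have h3 : 0 < 2 - z := by linarith
  induction K generalizing n with
  | zero =>
    rw [G_zero, sub_zero, pow_zero, div_one]
    exact one_le_pow₀ (by rw [le_div_iff₀ h3]; linarith)
  | succ K ih =>
    cases n with
    | zero =>
      rw [G_zero_succ, sub_self]
      positivity
    | succ n =>
      rw [G_succ]
      have h4 := ih n
      have h5 := ih (n + 1)
      have h6 : (z / (2 - z)) ^ (n + 1) / z ^ (K + 1) =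
          ((z / (2 - z)) ^ n / z ^ K + (z / (2 - z)) ^ (n + 1) / z ^ K) / 2 := by
        rw [pow_succ (z / (2 - z)), pow_succ z]
        field_simp
        ring
      rw [h6]
      linarith

/-- lower tail -/
theorem lower {z : ℝ} (h0 : 0 < z) (h1 : z ≤ 1) (n K : ℕ) :
    G n K ≤ (z / (2 - z)) ^ n / z ^ K := by
  have h3 : 0 < 2 - z := by linarith
  induction K generalizing n with
  | zero =>
    rw [G_zero]
    positivity
  | succ K ih =>
    cases n with
    | zero =>
      rw [G_zero_succ, pow_zero, le_div_iff₀ (by positivity), one_mul]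
      exact pow_le_one₀ h0.le h1
    | succ n =>
      rw [G_succ]
      have h4 := ih n
      have h5 := ih (n + 1)
      have h6 : (z / (2 - z)) ^ (n + 1) / z ^ (K + 1) =
          ((z / (2 - z)) ^ n / z ^ K + (z / (2 - z)) ^ (n + 1) / z ^ K) / 2 := by
        rw [pow_succ (z / (2 - z)), pow_succ z]
        field_simp
        ring
      rw [h6]
      linarith

theorem upper_exp {s : ℝ} (hs : 0 < s) (hs1 : s < 1) : ∃ η : ℝ, 0 < η ∧ ∀ n K : ℕ,
    (2 + s) * n ≤ K → 1 - G n K ≤ Real.exp (-(η * n)) := by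
  obtain ⟨w, rfl⟩ : ∃ w, s = 3 * w := ⟨s / 3, by ring⟩
  have hw0 : 0 < w := by linarith
  have hw1 : 0 < 1 - w := by linarith
  have hw3 : 0 < 1 - 3 * w := by linarith
  obtain ⟨z, hz⟩ : ∃ z, z = 1 + w := ⟨_, rfl⟩
  have hz1 : 1 < z := by rw [hz]; linarith
  have hz2 : z < 2 := by rw [hz]; linarith
  have h3 : 0 < 2 - z := by linarith
  have hlz : w / (1 + w) ≤ Real.log z := by
    have := Real.one_sub_inv_le_log_of_pos (by linarith : 0 < z)
    refine le_trans (le_of_eq ?_) this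
    rw [hz]
    field_simp
    ring
  have hlz2 : -(w / (1 - w)) ≤ Real.log (2 - z) := by
    have := Real.one_sub_inv_le_log_of_pos h3
    refine le_trans (le_of_eq ?_) this
    have h4 : 2 - z = 1 - w := by rw [hz]; ring
    rw [h4]
    field_simp
    ring
  have key : 0 < (1 + 3 * w) * (w / (1 + w)) - w / (1 - w) := by
    have h6 : (1 + 3 * w) * (w / (1 + w)) - w / (1 - w) =
        w * (w * (1 - 3 * w)) / ((1 + w) * (1 - w)) := by
      field_simp
      ring
    rw [h6]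
    positivity
  refine ⟨_, key, fun n K hK => ?_⟩
  refine (upper hz1.le hz2 n K).trans ?_
  have hz0 : 0 < z := by linarith
  have hpos : 0 < (z / (2 - z)) ^ n / z ^ K := by positivity
  rw [← Real.log_le_iff_le_exp hpos, Real.log_div (by positivity) (by positivity), Real.log_pow,
    Real.log_pow, Real.log_div (by positivity) h3.ne']
  have hlogz : 0 < Real.log z := Real.log_pos hz1
  have hn0 : (0 : ℝ) ≤ n := by positivity
  have h8 : (2 + 3 * w) * n * Real.log z ≤ K * Real.log z :=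
    mul_le_mul_of_nonneg_right hK hlogz.le
  have h9 : (n : ℝ) * (-(w / (1 - w))) ≤ n * Real.log (2 - z) :=
    mul_le_mul_of_nonneg_left hlz2 hn0
  have h10 : (n : ℝ) * (1 + 3 * w) * (w / (1 + w)) ≤ n * (1 + 3 * w) * Real.log z :=
    mul_le_mul_of_nonneg_left hlz (by positivity)
  nlinarith

theorem lower_exp {s : ℝ} (hs : 0 < s) (hs1 : s < 1) : ∃ η : ℝ, 0 < η ∧ ∀ n K : ℕ,
    (K : ℝ) ≤ (2 - s) * n → G n K ≤ Real.exp (-(η * n)) := by
  obtain ⟨w, rfl⟩ : ∃ w, s = 3 * w := ⟨s / 3, by ring⟩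
  have hw0 : 0 < w := by linarith
  have hw1 : 0 < 1 - w := by linarith
  have hw3 : 0 < 1 - 3 * w := by linarith
  obtain ⟨z, hz⟩ : ∃ z, z = 1 - w := ⟨_, rfl⟩
  have hz1 : z < 1 := by rw [hz]; linarith
  have hz0 : 0 < z := by rw [hz]; linarith
  have h3 : 0 < 2 - z := by linarith
  have hlz : -(w / (1 - w)) ≤ Real.log z := by
    have := Real.one_sub_inv_le_log_of_pos hz0
    refine le_trans (le_of_eq ?_) this
    rw [hz]
    field_simp
    ring
  have hlz2 : w / (1 + w) ≤ Real.log (2 - z) := by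
    have := Real.one_sub_inv_le_log_of_pos h3
    refine le_trans (le_of_eq ?_) this
    have h4 : 2 - z = 1 + w := by rw [hz]; ring
    rw [h4]
    field_simp
    ring
  have key : 0 < w / (1 + w) - (1 - 3 * w) * (w / (1 - w)) := by
    have h6 : w / (1 + w) - (1 - 3 * w) * (w / (1 - w)) =
        w * (w * (1 + 3 * w)) / ((1 + w) * (1 - w)) := by
      field_simp
      ring
    rw [h6]
    positivity
  refine ⟨_, key, fun n K hK => ?_⟩
  refine (lower hz0 hz1.le n K).trans ?_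
  have hpos : 0 < (z / (2 - z)) ^ n / z ^ K := by positivity
  rw [← Real.log_le_iff_le_exp hpos, Real.log_div (by positivity) (by positivity), Real.log_pow,
    Real.log_pow, Real.log_div (by positivity) h3.ne']
  have hlogz : Real.log z < 0 := Real.log_neg hz0 hz1
  have hn0 : (0 : ℝ) ≤ n := by positivity
  have h8 : (2 - 3 * w) * n * Real.log z ≤ K * Real.log z :=
    mul_le_mul_of_nonpos_right hK hlogz.le
  have h9 : (n : ℝ) * (w / (1 + w)) ≤ n * Real.log (2 - z) :=
    mul_le_mul_of_nonneg_left hlz2 hn0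
  have h10 : (n : ℝ) * (1 - 3 * w) * (-(w / (1 - w))) ≤ n * (1 - 3 * w) * Real.log z :=
    mul_le_mul_of_nonneg_left hlz (mul_nonneg hn0 (by linarith))
  nlinarith

/-! ## the level lines -/

/-- `log 3 / log 2` -/
noncomputable def cc : ℝ := Real.logb 2 3

theorem cc_gt : 3 / 2 < cc := by
  unfold cc
  rw [Real.lt_logb_iff_rpow_lt (by norm_num) (by norm_num)]
  have h1 : ((2 : ℝ) ^ (3 / 2 : ℝ)) ^ (2 : ℕ) = 8 := by
    rw [← Real.rpow_natCast, ← Real.rpow_mul (by norm_num)]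
    norm_num
  have h2 : (0 : ℝ) ≤ (2 : ℝ) ^ (3 / 2 : ℝ) := by positivity
  nlinarith

theorem cc_lt : cc < 8 / 5 := by
  unfold cc
  rw [Real.logb_lt_iff_lt_rpow (by norm_num) (by norm_num)]
  have h1 : ((2 : ℝ) ^ (8 / 5 : ℝ)) ^ (5 : ℕ) = 256 := by
    rw [← Real.rpow_natCast, ← Real.rpow_mul (by norm_num)]
    norm_num
  have h2 : (0 : ℝ) ≤ (2 : ℝ) ^ (8 / 5 : ℝ) := by positivity
  by_contra h
  push Not at h
  have h3 : ((2 : ℝ) ^ (8 / 5 : ℝ)) ^ (5 : ℕ) ≤ 3 ^ 5 := pow_le_pow_left₀ h2 h 5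
  rw [h1] at h3
  norm_num at h3

/-- the least `K` with `lam + n c ≤ K` -/
noncomputable def kap (lam : ℝ) (n : ℕ) : ℕ := ⌈lam + n * cc⌉₊

/-- `kap (logb 2 R) n` is the least `K` with `R 3 ^ n ≤ 2 ^ K` -/
theorem kap_le_iff {R : ℝ} (hR : 0 < R) (n K : ℕ) :
    kap (Real.logb 2 R) n ≤ K ↔ R * 3 ^ n ≤ 2 ^ K := by
  unfold kap cc
  rw [Nat.ceil_le, ← Real.logb_rpow (b := 2) (x := (K : ℝ)) (by norm_num) (by norm_num),
    Real.rpow_natCast]
  have h1 : (n : ℝ) * Real.logb 2 3 = Real.logb 2 (3 ^ n) := by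
    rw [← Real.rpow_natCast 3 n, Real.logb_rpow_eq_mul_logb_of_pos (by norm_num)]
  rw [h1, ← Real.logb_mul hR.ne' (by positivity)]
  exact Real.logb_le_logb (by norm_num) (by positivity) (by positivity)

variable {lam : ℝ}

theorem kap_ge (n : ℕ) : lam + n * cc ≤ kap lam n := Nat.le_ceil _

theorem kap_lt (hl : 0 ≤ lam) (n : ℕ) : (kap lam n : ℝ) < lam + n * cc + 1 := by
  apply Nat.ceil_lt_add_one
  have := cc_gt
  positivity

theorem kap_succ (hl : 0 ≤ lam) (n : ℕ) :
    kap lam (n + 1) = kap lam n + 1 ∨ kap lam (n + 1) = kap lam n + 2 := by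
  have h1 := kap_ge (lam := lam) n
  have h2 := kap_lt hl n
  have h3 := kap_ge (lam := lam) (n + 1)
  have h4 := kap_lt hl (n + 1)
  push_cast at h3 h4
  have h5 := cc_gt
  have h6 := cc_lt
  have h7 : (kap lam n : ℝ) < kap lam (n + 1) := by nlinarith
  have h8 : (kap lam (n + 1) : ℝ) < kap lam n + 3 := by nlinarith
  have h9 : kap lam n < kap lam (n + 1) := by exact_mod_cast h7
  have h10 : kap lam (n + 1) < kap lam n + 3 := by exact_mod_cast h8
  omega

/-! ## one step -/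

theorem step_P {n K : ℕ} {t : ℝ} (hn : 1 ≤ n) (hK : 1 ≤ K) (h : |(K : ℝ) - 2 * n| ≤ t * n) :
    P (n + 1) K ≤ (1 + t) * P n K := by
  have h1 := ratio_n hn hK
  have hn' : (0 : ℝ) < n := by exact_mod_cast hn
  have h2 : (K : ℝ) - n ≤ (1 + t) * n := by linarith [(abs_le.1 h).2]
  have h3 := mul_le_mul_of_nonneg_right h2 (P_nonneg n K)
  rw [← h1] at h3
  have h4 : (n : ℝ) * P (n + 1) K ≤ n * ((1 + t) * P n K) := by linarith
  exact le_of_mul_le_mul_left h4 hn'

theorem diff_one {n K : ℕ} {t : ℝ} (ht : 0 < t) (hn : 1 ≤ n) (hK : 1 ≤ K)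
    (h : |(K : ℝ) - 2 * n| ≤ t * n) :
    |P (n + 1) (K + 1) - P n K| ≤ 2 * t * P n K := by
  have hn' : (0 : ℝ) < n := by exact_mod_cast hn
  rw [next_one hn hK]
  have h1 : P n K * (K / (2 * n)) - P n K = P n K * ((K - 2 * n) / (2 * n)) := by
    field_simp
  rw [h1, abs_mul, abs_of_nonneg (P_nonneg n K), abs_div, abs_of_pos (by positivity : (0:ℝ) < 2 * n),
    mul_comm]
  apply mul_le_mul_of_nonneg_right _ (P_nonneg n K)
  rw [div_le_iff₀ (by positivity)]
  have : 0 ≤ t * n := by positivity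
  linarith

theorem diff_two {n K : ℕ} {t : ℝ} (ht : 0 < t) (ht1 : t ≤ 1 / 4) (hn : 1 ≤ n)
    (hnt : 2 ≤ t * n) (h : |(K : ℝ) - 2 * n| ≤ t * n) :
    |P (n + 1) (K + 2) - P n K| ≤ 2 * t * P n K := by
  have hn' : (0 : ℝ) < n := by exact_mod_cast hn
  obtain ⟨hl, hu⟩ := abs_le.1 h
  have hnK : n ≤ K := by
    have : (n : ℝ) ≤ K := by nlinarith
    exact_mod_cast this
  rw [next_two hn hnK]
  obtain ⟨x, hx⟩ : ∃ x : ℝ, x = K / (2 * n) := ⟨_, rfl⟩
  obtain ⟨y, hy⟩ : ∃ y : ℝ, y = ((K : ℝ) + 1) / (2 * ((K : ℝ) - n + 1)) := ⟨_, rfl⟩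
  rw [← hx, ← hy]
  have hd : 0 < 2 * ((K : ℝ) - n + 1) := by nlinarith
  have hx1 : |x - 1| ≤ t / 2 := by
    have : x - 1 = (K - 2 * n) / (2 * n) := by rw [hx]; field_simp
    rw [this, abs_div, abs_of_pos (by positivity : (0:ℝ) < 2 * n), div_le_iff₀ (by positivity)]
    linarith
  have hy1 : |y - 1| ≤ t := by
    have hd' : (K : ℝ) - n + 1 ≠ 0 := by
      intro h0
      rw [h0] at hd
      simp at hd
    have : y - 1 = (2 * n - K - 1) / (2 * ((K : ℝ) - n + 1)) := by
      rw [hy]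
      field_simp
      ring
    rw [this, abs_div, abs_of_pos hd, div_le_iff₀ hd, abs_le]
    constructor
    · nlinarith
    · nlinarith
  have h2 : P n K * x * y - P n K = P n K * ((x - 1) * (y - 1) + (x - 1) + (y - 1)) := by ring
  rw [h2, abs_mul, abs_of_nonneg (P_nonneg n K), mul_comm]
  apply mul_le_mul_of_nonneg_right _ (P_nonneg n K)
  have h3 : |(x - 1) * (y - 1)| ≤ t / 2 * t := by
    rw [abs_mul]
    exact mul_le_mul hx1 hy1 (abs_nonneg _) (by positivity)
  calc |(x - 1) * (y - 1) + (x - 1) + (y - 1)| ≤ |(x - 1) * (y - 1)| + |x - 1| + |y - 1| := by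
        exact (abs_add_le _ _).trans (by linarith [abs_add_le ((x - 1) * (y - 1)) (x - 1)])
    _ ≤ t / 2 * t + t / 2 + t := by linarith
    _ ≤ 2 * t := by nlinarith

/-! ## summation -/

theorem abel (p th : ℕ → ℝ) (h0 : ∀ n, 0 ≤ th n) (h1 : ∀ n, th n ≤ 1) {N0 N1 : ℕ}
    (hN : N0 ≤ N1) :
    -∑ n ∈ Ico N0 N1, (th (n + 1) - th n) * p n ≤
      th N0 * p N0 - th N1 * p N1 + ∑ n ∈ Ico N0 N1, |p (n + 1) - p n| := by
  induction N1, hN using Nat.le_induction with
  | base => simp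
  | succ N hN ih =>
    rw [sum_Ico_succ_top hN, sum_Ico_succ_top hN]
    have h2 : th (N + 1) * (p (N + 1) - p N) ≤ |p (N + 1) - p N| := by
      calc th (N + 1) * (p (N + 1) - p N) ≤ th (N + 1) * |p (N + 1) - p N| :=
            mul_le_mul_of_nonneg_left (le_abs_self _) (h0 _)
        _ ≤ 1 * |p (N + 1) - p N| := mul_le_mul_of_nonneg_right (h1 _) (abs_nonneg _)
        _ = _ := one_mul _
    linarith

theorem core (hl : 0 ≤ lam) {t : ℝ} (ht : 0 < t) (ht1 : t ≤ 1 / 4) {N0 N1 : ℕ} (hN : N0 ≤ N1)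
    (hn0 : 1 ≤ N0) (hnt : 2 ≤ t * N0)
    (hw : ∀ n ∈ Ico N0 N1, |(kap lam n : ℝ) - 2 * n| ≤ t * n) :
    G N0 (kap lam N0) - G N1 (kap lam N1) ≤
      (2 - cc + 3 * t) * (∑ n ∈ Ico N0 N1, P n (kap lam n)) + P N0 (kap lam N0) := by
  obtain ⟨th, hth⟩ : ∃ th : ℕ → ℝ, ∀ n, th n = kap lam n - (lam + n * cc) := ⟨_, fun _ => rfl⟩
  have hth0 : ∀ n, 0 ≤ th n := fun n => by rw [hth]; linarith [kap_ge (lam := lam) n]
  have hth1 : ∀ n, th n ≤ 1 := fun n => by rw [hth]; linarith [kap_lt hl n]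
  have hcc := cc_gt
  -- the sum of the fluxes
  have htel : G N0 (kap lam N0) - G N1 (kap lam N1) =
      ∑ n ∈ Ico N0 N1, (G n (kap lam n) - G (n + 1) (kap lam (n + 1))) := by
    have h2 := sum_Ico_sub (fun n => -G n (kap lam n)) hN
    have h3 : G N0 (kap lam N0) - G N1 (kap lam N1) =
        -G N1 (kap lam N1) - -G N0 (kap lam N0) := by ring
    rw [h3, ← h2]
    refine sum_congr rfl fun n _ => ?_
    ring
  have hpos : ∀ n ∈ Ico N0 N1, 1 ≤ n ∧ 1 ≤ kap lam n ∧ 2 ≤ t * n := by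
    intro n hn
    obtain ⟨h1, h2⟩ := mem_Ico.1 hn
    have h3 : 1 ≤ n := hn0.trans h1
    have h4 : (1 : ℝ) ≤ n := by exact_mod_cast h3
    have h5 : (N0 : ℝ) ≤ n := by exact_mod_cast h1
    refine ⟨h3, ?_, by nlinarith⟩
    have h6 := kap_ge (lam := lam) n
    have h7 : (1 : ℝ) ≤ kap lam n := by nlinarith
    exact_mod_cast h7
  have hflux : ∀ n ∈ Ico N0 N1, G n (kap lam n) - G (n + 1) (kap lam (n + 1)) ≤
      (2 - cc + t) * P n (kap lam n) - (th (n + 1) - th n) * P n (kap lam n) := by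
    intro n hn
    obtain ⟨h1, h2, _⟩ := hpos n hn
    have h3 := step_P h1 h2 (hw n hn)
    have h4 := P_nonneg n (kap lam n)
    have h5 : th (n + 1) - th n = (kap lam (n + 1) : ℝ) - kap lam n - cc := by
      rw [hth, hth]
      push_cast
      ring
    rw [h5]
    rcases kap_succ hl n with h | h
    · rw [h, flux_one]
      push_cast
      nlinarith
    · rw [h, flux_two]
      push_cast
      nlinarith
  have hdiff : ∀ n ∈ Ico N0 N1, |P (n + 1) (kap lam (n + 1)) - P n (kap lam n)| ≤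
      2 * t * P n (kap lam n) := by
    intro n hn
    obtain ⟨h1, h2, h3⟩ := hpos n hn
    rcases kap_succ hl n with h | h
    · rw [h]
      exact diff_one ht h1 h2 (hw n hn)
    · rw [h]
      exact diff_two ht ht1 h1 h3 (hw n hn)
  have hab := abel (fun n => P n (kap lam n)) th hth0 hth1 hN
  have hsd : ∑ n ∈ Ico N0 N1, |P (n + 1) (kap lam (n + 1)) - P n (kap lam n)| ≤
      2 * t * ∑ n ∈ Ico N0 N1, P n (kap lam n) := by
    rw [mul_sum]
    exact sum_le_sum hdiff
  have h8 : th N0 * P N0 (kap lam N0) ≤ P N0 (kap lam N0) := by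
    have := mul_le_mul_of_nonneg_right (hth1 N0) (P_nonneg N0 (kap lam N0))
    linarith
  have h9 : 0 ≤ th N1 * P N1 (kap lam N1) := mul_nonneg (hth0 _) (P_nonneg _ _)
  rw [htel]
  refine (sum_le_sum hflux).trans ?_
  rw [sum_sub_distrib, ← mul_sum]
  beta_reduce at hab
  linarith

end Pool.Agent.helper31.T2X
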